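import Pool.Agent.REV.StmtsA1

/-! Row LWA of squad REV. -/

set_option autoImplicit false

namespace Pool.Agent.REV.H16

open Pool.Agent.REV Set

theorem lwa : LwaStmt := by
  intro n i d hin hd
  set lam : ℝ := ((i : ℝ) + 2) / ((n : ℝ) + 1) with hlam
  have hn1 : (0 : ℝ) < (n : ℝ) + 1 := by positivity
  have hi2 : (0 : ℝ) < (i : ℝ) + 2 := by positivity
  have hlam0 : 0 < lam := by positivity
  have hlam1 : lam ≤ 1 := by
    rw [hlam, div_le_one hn1]
    have : ((i + 1 : ℕ) : ℝ) ≤ n := by exact_mod_cast hin
    push_cast at this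
    linarith
  have hq : 0 < 1 + lam * d := by positivity
  set b : ℝ := 1 / (1 + lam * d) with hb
  have hbq : b * (1 + lam * d) = 1 := by rw [hb]; field_simp
  have hb0 : 0 < b := by positivity
  have hA : ∀ x ∈ Icc (0 : ℝ) 1, (1 + (b - 1) * x) * (1 + lam * d) = 1 + lam * d * (1 - x) := by
    intro x _
    linear_combination x * hbq
  have hApos : ∀ x ∈ Icc (0 : ℝ) 1, 0 < 1 + (b - 1) * x := by
    intro x hx
    have h1 := hA x hx
    have h2 : 0 < 1 + lam * d * (1 - x) := by
      have : 0 ≤ lam * d * (1 - x) := mul_nonneg (by positivity) (by linarith [hx.2])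
      linarith
    rw [← h1] at h2
    exact pos_of_mul_pos_left h2 hq.le
  have hBpos : ∀ x ∈ Icc (0 : ℝ) 1, 0 < 1 + d * (1 - x) := by
    intro x hx
    have : 0 ≤ d * (1 - x) := mul_nonneg hd (by linarith [hx.2])
    linarith
  set N : ℝ := ((n : ℝ) + 1) / 2 with hN
  have hk : ((i : ℝ) + 2) / 2 = lam * N := by
    rw [hlam, hN]
    field_simp
  have hNpos : 0 < N := by positivity
  have hd1 : ∀ x ∈ Icc (0 : ℝ) 1, HasDerivAt
      (fun x : ℝ => N * Real.log (1 + (b - 1) * x) - lam * N * Real.log (1 + d * (1 - x)))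
      (N * ((b - 1) / (1 + (b - 1) * x)) - lam * N * ((-d) / (1 + d * (1 - x)))) x := by
    intro x hx
    have e1 : HasDerivAt (fun x : ℝ => 1 + (b - 1) * x) (b - 1) x := by
      have := ((hasDerivAt_id x).const_mul (b - 1)).const_add 1
      simpa using this
    have e2 : HasDerivAt (fun x : ℝ => 1 + d * (1 - x)) (-d) x := by
      have := (((hasDerivAt_id x).const_sub 1).const_mul d).const_add 1
      simpa using this
    exact ((e1.log (hApos x hx).ne').const_mul N).sub ((e2.log (hBpos x hx).ne').const_mul (lam * N))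
  have hanti : AntitoneOn
      (fun x : ℝ => N * Real.log (1 + (b - 1) * x) - lam * N * Real.log (1 + d * (1 - x)))
      (Icc 0 1) := by
    apply antitoneOn_of_deriv_nonpos (convex_Icc 0 1)
    · intro x hx
      exact (hd1 x hx).continuousAt.continuousWithinAt
    · intro x hx
      exact (hd1 x (interior_subset hx)).differentiableAt.differentiableWithinAt
    · intro x hx
      have hx' := interior_subset hx
      rw [(hd1 x hx').deriv]
      have h1 := hA x hx'
      have hAp := hApos x hx'
      have hBp := hBpos x hx'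
      have e3 : N * ((b - 1) / (1 + (b - 1) * x)) - lam * N * ((-d) / (1 + d * (1 - x))) =
          N * ((b - 1) * (1 + d * (1 - x)) + lam * d * (1 + (b - 1) * x)) /
            ((1 + (b - 1) * x) * (1 + d * (1 - x))) := by
        field_simp
        ring
      rw [e3]
      apply div_nonpos_of_nonpos_of_nonneg _ (mul_pos hAp hBp).le
      apply mul_nonpos_of_nonneg_of_nonpos hNpos.le
      have hb1 : b - 1 = - (lam * d * b) := by linear_combination hbq
      have h4 : 1 + (b - 1) * x = b * (1 + lam * d * (1 - x)) := by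
        rw [← h1]
        linear_combination -(1 + (b - 1) * x) * hbq
      rw [h4, hb1]
      have h5 : lam * d * (1 - x) ≤ d * (1 - x) := by
        have h6 : 0 ≤ d * (1 - x) := mul_nonneg hd (by linarith [hx'.2])
        have := mul_le_mul_of_nonneg_right hlam1 h6
        linarith
      have h7 : 0 ≤ lam * d * b := by positivity
      have h8 : lam * d * b * (1 + lam * d * (1 - x)) ≤ lam * d * b * (1 + d * (1 - x)) :=
        mul_le_mul_of_nonneg_left (by linarith) h7
      linarith
  intro x hx y hy hxy
  have h := Real.exp_le_exp.mpr (hanti hx hy hxy)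
  have hW : ∀ x ∈ Icc (0 : ℝ) 1, Real.exp (N * Real.log (1 + (b - 1) * x) -
      lam * N * Real.log (1 + d * (1 - x))) =
      (1 + (b - 1) * x) ^ N * (1 + d * (1 - x)) ^ (-(lam * N)) := by
    intro x hx
    rw [Real.rpow_def_of_pos (hApos x hx), Real.rpow_def_of_pos (hBpos x hx), ← Real.exp_add]
    congr 1
    ring
  simp only at h
  rw [hW x hx, hW y hy] at h
  simp only [hk]
  exact h

end Pool.Agent.REV.H16
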