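import Pool.Agent.REV.StmtsV3

set_option autoImplicit false

/-! Squad REV, module VX3: the self improving inequality of the limit, `n = 3` (adapted from
`Pool/Agent/Helper89_REV/VST.lean`). -/

namespace Pool.Agent.REV.H16

open Set MeasureTheory Filter
open scoped Topology

theorem int_inv_sq {b : ℝ} (hb : 0 < b) :
    IntegrableOn (fun β : ℝ => (β ^ 2)⁻¹) (Ioi b) := by
  have h1 : IntegrableOn (fun β : ℝ => β ^ (-2 : ℝ)) (Ioi b) :=
    integrableOn_Ioi_rpow_of_lt (by norm_num) hb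
  refine h1.congr_fun (fun β hβ => ?_) measurableSet_Ioi
  have h0 : 0 < β := hb.trans hβ
  show β ^ (-2 : ℝ) = (β ^ 2)⁻¹
  rw [Real.rpow_neg h0.le]
  norm_num

theorem j0_nonneg : 0 ≤ J0 3 := by
  unfold J0
  apply intervalIntegral.integral_nonneg zero_le_one
  intro u hu
  apply Real.rpow_nonneg
  nlinarith [hu.1, hu.2]

theorem vx3 (vlm : Vm3Stmt) (vku : Vk3Stmt) (vks : Vq3Stmt) : Vx3Stmt := by
  intro C σ R F s y D hC hσ hR h
  have hc3 : 0 < c3 3 C := by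
    unfold c3
    exact div_pos hC (by norm_num)
  have hJ := j0_nonneg
  have hyR : ∀ b : ℝ, 0 < b → y b ≤ R := by
    intro b hb
    refine ge_of_tendsto h.top ?_
    filter_upwards [eventually_ge_atTop b] with b' hb'
    exact h.mono hb (hb.trans_le hb') hb'
  have hae : ∀ b : ℝ, ∀ᵐ β ∂(volume.restrict (Ioi b)), β ∉ D := fun b =>
    ae_restrict_of_ae (h.cnt.ae_notMem volume)
  have hint : ∀ b : ℝ, 0 < b → IntegrableOn (fun β : ℝ => (β ^ 2)⁻¹ * y β ^ 2) (Ioi b) := by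
    intro b hb
    have h1 : AEMeasurable y (volume.restrict (Ioi b)) :=
      aemeasurable_restrict_of_monotoneOn measurableSet_Ioi
        (h.mono.mono (Ioi_subset_Ioi hb.le))
    have h2 : AEStronglyMeasurable (fun β : ℝ => (β ^ 2)⁻¹ * y β ^ 2)
        (volume.restrict (Ioi b)) :=
      ((measurable_id.pow_const 2).inv.aemeasurable.mul (h1.pow_const 2)).aestronglyMeasurable
    refine Integrable.mono' ((int_inv_sq hb).mul_const (R ^ 2)) h2 ?_
    filter_upwards [ae_restrict_mem measurableSet_Ioi] with β hβ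
    have h0 : 0 < β := hb.trans hβ
    have h3 := h.nonneg β h0
    rw [Real.norm_eq_abs, abs_of_nonneg (by positivity)]
    exact mul_le_mul_of_nonneg_left (pow_le_pow_left₀ h3 (hyR β h0) _) (by positivity)
  obtain ⟨D1, hD1⟩ : ∃ D1 : ℝ, D1 = σ * σ * C * c3 3 C * J0 3 * R := ⟨_, rfl⟩
  have hD1p : 0 ≤ D1 := by
    rw [hD1]
    positivity
  have hpos : ∀ c : ℝ, 0 < c → 0 ≤ᵐ[volume.restrict (Ioi c)] fun β : ℝ =>
      (β ^ 2)⁻¹ * y β ^ 2 := by
    intro c hc
    filter_upwards [ae_restrict_mem measurableSet_Ioi] with β hβ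
    have h3 := h.nonneg β (hc.trans hβ)
    exact mul_nonneg (by positivity) (pow_nonneg h3 _)
  have hkey1 : ∀ b : ℝ, 0 < b → b ∉ D →
      y b ≤ D1 * (b * ∫ β in Ioi b, (β ^ 2)⁻¹ * y β ^ 2) := by
    intro b hb hbD
    have h1 : ∀ k, yb 3 (F k 2) b ≤ s k 0 * s k 1 * C * c3 3 C * J0 3 * RA 3 (F k 1) 1 *
        (b * ∫ β in Ioi b, (β ^ 2)⁻¹ * ph 3 (F k 0) β) := by
      intro k
      refine (vku C (s k 0) (s k 1) (F k 0) (F k 1) (F k 2) hC (h.spos k 0) (h.spos k 1)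
        (h.prf k 0) (h.prf k 1) (h.prf k 2) (h.st k 0 (by norm_num)) (h.st k 1 le_rfl) b hb).trans
        ?_
      have h2 := (vks (F k 0) b (h.prf k 0) hb).2.2.2
      have h3 : 0 ≤ RA 3 (F k 1) 1 := (vlm (F k 1) (h.prf k 1)).2.2.1
      have h4 := h.spos k 0
      have h5 := h.spos k 1
      exact mul_le_mul_of_nonneg_left h2 (by positivity)
    have h2 : Tendsto (fun k => yb 3 (F k 2) b) atTop (𝓝 (y b)) := h.ylim 2 le_rfl b hb hbD
    have h3 : Tendsto (fun k => s k 0) atTop (𝓝 σ) := h.slim 0 (by norm_num)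
    have h4 : Tendsto (fun k => s k 1) atTop (𝓝 σ) := h.slim 1 le_rfl
    have h5 : Tendsto (fun k => RA 3 (F k 1) 1) atTop (𝓝 R) := h.rlim 1 (by norm_num)
    have h6 : Tendsto (fun k => RA 3 (F k 0) 1) atTop (𝓝 R) := h.rlim 0 (by norm_num)
    have h7 : Tendsto (fun k => ∫ β in Ioi b, (β ^ 2)⁻¹ * ph 3 (F k 0) β) atTop
        (𝓝 (∫ β in Ioi b, (β ^ 2)⁻¹ * y β ^ 2)) := by
      refine tendsto_integral_filter_of_dominated_convergence
        (fun β => (β ^ 2)⁻¹ * (R + 1) ^ 2) ?_ ?_ ((int_inv_sq hb).mul_const _) ?_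
      · exact Eventually.of_forall fun k =>
          (vks (F k 0) b (h.prf k 0) hb).2.2.1.aestronglyMeasurable
      · have h8 : ∀ᶠ k in atTop, RA 3 (F k 0) 1 ≤ R + 1 :=
          h6.eventually_le_const (by linarith)
        filter_upwards [h8] with k hk
        filter_upwards [ae_restrict_mem measurableSet_Ioi] with β hβ
        have h0 : 0 < β := hb.trans hβ
        have h9 := (vlm (F k 0) (h.prf k 0)).2.2.2.1 β h0.le
        have h10 : 0 ≤ ph 3 (F k 0) β := pow_nonneg h9.1 _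
        rw [Real.norm_eq_abs, abs_of_nonneg (by positivity)]
        exact mul_le_mul_of_nonneg_left (pow_le_pow_left₀ h9.1 (h9.2.trans hk) _) (by positivity)
      · filter_upwards [ae_restrict_mem measurableSet_Ioi, hae b] with β hβ hβD
        exact ((h.ylim 0 (by norm_num) β (hb.trans hβ) hβD).pow 2).const_mul _
    have h8 : Tendsto (fun k => s k 0 * s k 1 * C * c3 3 C * J0 3 * RA 3 (F k 1) 1 *
        (b * ∫ β in Ioi b, (β ^ 2)⁻¹ * ph 3 (F k 0) β)) atTop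
        (𝓝 (σ * σ * C * c3 3 C * J0 3 * R *
          (b * ∫ β in Ioi b, (β ^ 2)⁻¹ * y β ^ 2))) :=
      ((((((h3.mul h4).mul_const C).mul_const (c3 3 C)).mul_const (J0 3)).mul h5).mul
        (h7.const_mul b))
    rw [hD1]
    exact le_of_tendsto_of_tendsto' h2 h8 h1
  obtain ⟨D0, hD0⟩ : ∃ D0 : ℝ, D0 = D1 + 1 := ⟨_, rfl⟩
  have hD0p : 0 < D0 := by
    rw [hD0]
    linarith
  have hkey : ∀ b : ℝ, 0 < b → b ∉ D →
      y b ≤ D0 * (b * ∫ β in Ioi b, (β ^ 2)⁻¹ * y β ^ 2) := by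
    intro b hb hbD
    refine (hkey1 b hb hbD).trans ?_
    apply mul_le_mul_of_nonneg_right (by rw [hD0]; linarith)
    exact mul_nonneg hb.le (integral_nonneg_of_ae (hpos b hb))
  refine ⟨D0, hD0p, fun b hb => ⟨hint b hb, ?_⟩⟩
  obtain ⟨I, hI⟩ : ∃ I : ℝ, I = ∫ β in Ioi b, (β ^ 2)⁻¹ * y β ^ 2 := ⟨_, rfl⟩
  have hI0 : 0 ≤ I := by
    rw [hI]
    exact integral_nonneg_of_ae (hpos b hb)
  rw [← hI]
  refine le_of_forall_pos_le_add fun ε hε => ?_
  have hδ : 0 < ε / (D0 * I + 1) := div_pos hε (by positivity)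
  obtain ⟨b', hb'D, hb'⟩ := (h.cnt.dense_compl ℝ).exists_between
    (show b < b + ε / (D0 * I + 1) by linarith)
  have hb'0 : 0 < b' := hb.trans hb'.1
  have h1 : y b ≤ y b' := h.mono hb hb'0 hb'.1.le
  have h2 := hkey b' hb'0 hb'D
  have h3 : ∫ β in Ioi b', (β ^ 2)⁻¹ * y β ^ 2 ≤ I := by
    rw [hI]
    exact setIntegral_mono_set (hint b hb) (hpos b hb)
      (Ioi_subset_Ioi hb'.1.le).eventuallyLE
  have h4 : D0 * (b' * ∫ β in Ioi b', (β ^ 2)⁻¹ * y β ^ 2) ≤ D0 * (b' * I) :=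
    mul_le_mul_of_nonneg_left (mul_le_mul_of_nonneg_left h3 hb'0.le) hD0p.le
  have h5 : D0 * (b' * I) ≤ D0 * ((b + ε / (D0 * I + 1)) * I) :=
    mul_le_mul_of_nonneg_left (mul_le_mul_of_nonneg_right hb'.2.le hI0) hD0p.le
  have h6 : D0 * I * (ε / (D0 * I + 1)) ≤ ε := by
    rw [mul_div_assoc', div_le_iff₀ (by positivity)]
    nlinarith
  have h7 : D0 * ((b + ε / (D0 * I + 1)) * I) = D0 * (b * I) + D0 * I * (ε / (D0 * I + 1)) := by
    ring
  linarith

end Pool.Agent.REV.H16
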