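import Pool.Agent.REV.StmtsU3

/-!
# Squad REV, row FC3 (adapted from Helper13_REV/FCO.lean): a fixed density with a finite comparison is constant
-/

set_option autoImplicit false

open Set Filter
open scoped Topology

namespace Pool.Agent.REV.H16

theorem low_inf3 {n : ℕ} {f : ℝ → ℝ} {A₀ : ℝ} (h0 : 0 ≤ A₀) {u : ℕ → ℝ}
    (hu : Tendsto u atTop (𝓝 A₀)) (hL : ∀ k, Low n (1 + u k) f) : Low n (1 + A₀) f := by
  intro t1 h1 t2 h2 h12
  have key : ∀ t ∈ Icc (0 : ℝ) 1,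
      Tendsto (fun k => El n (1 + u k) f t) atTop (𝓝 (El n (1 + A₀) f t)) := by
    intro t ht
    unfold El
    refine Tendsto.mul_const _ ?_
    have h3 : Tendsto (fun k => 1 + (1 + u k - 1) * t ^ 2) atTop
        (𝓝 (1 + (1 + A₀ - 1) * t ^ 2)) :=
      ((((hu.const_add 1).sub_const 1).mul_const (t ^ 2)).const_add 1)
    refine h3.rpow_const (Or.inl ?_)
    have : 0 ≤ A₀ * t ^ 2 := by positivity
    nlinarith
  exact le_of_tendsto_of_tendsto' (key t1 h1) (key t2 h2) fun k => hL k h1 h2 h12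

theorem fc3 (sta : Sta3Stmt) (sbd : Sd3Stmt) (smb : Sm3Stmt) (imp : Im3Stmt) : Fc3Stmt := by
  intro n C A f hn hF hC hA hLow
  set S : Set ℝ := {B | 0 ≤ B ∧ Low n (1 + B) f} with hS
  have hAS : A ∈ S := ⟨hA, hLow⟩
  have hbd : BddBelow S := ⟨0, fun B hB => hB.1⟩
  have hne : S.Nonempty := ⟨A, hAS⟩
  set A₀ := sInf S with hA₀
  have h0 : 0 ≤ A₀ := le_csInf hne fun B hB => hB.1
  obtain ⟨u, -, hu, huS⟩ := exists_seq_tendsto_sInf hne hbd
  have hL0 : Low n (1 + A₀) f := low_inf3 h0 hu fun k => (huS k).2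
  have hf0 : ∀ t ∈ Icc (0 : ℝ) 1, 0 ≤ f t := fun t ht => (hF.pos t ht).le
  have hU0 : Upp n (1 / (1 + A₀)) f := by
    have h1 := sta n (n - 1) 0 C A₀ f hn (by omega) (by omega) le_rfl hC.le h0 hf0 hL0
    have h2 : (((n - 1 : ℕ) : ℝ) + 2) / ((n : ℝ) + 1) = 1 := by
      rw [Nat.cast_sub (by omega : 1 ≤ n)]
      have : (n : ℝ) + 1 ≠ 0 := by positivity
      field_simp
      push_cast
      ring
    rw [h2, one_mul] at h1
    intro t1 h1' t2 h2' h12
    have h3 := h1 h1' h2' h12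
    have h4 : ∀ t ∈ Icc (0 : ℝ) 1, TT n (n - 1) 0 C f t = f t := by
      intro t ht
      rw [hF.eq t ht]
      unfold TT
      rw [show n - 1 - 1 = n - 2 from by omega]
      ring
    unfold El at h3 ⊢
    rw [h4 t1 h1', h4 t2 h2'] at h3
    exact h3
  rcases h0.lt_or_eq with hpos | hz
  · exfalso
    obtain ⟨δ, ε, hδ, hδ1, hε, hd⟩ := sbd n C A₀ f hn hF hC hpos hL0
    have hb0 : 0 < 1 / (1 + A₀) := by positivity
    have hb1 : 1 / (1 + A₀) < 1 := by
      rw [div_lt_one (by positivity)]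
      linarith
    obtain ⟨b1, hbb, hb11, hc⟩ := smb n (1 / (1 + A₀)) δ ε f hn hF.cont hF.pos hb0 hb1 hU0 hδ hδ1
      hε hd
    obtain ⟨A', hA'0, hA'1, hA'L⟩ := imp n C (1 / (1 + A₀)) b1 f hn hF hC hb0 hbb hb11 hU0 hc
    rw [one_div_one_div] at hA'1
    have h5 : A₀ ≤ A' := csInf_le hbd ⟨hA'0, hA'L⟩
    linarith
  · intro t ht
    rw [← hz] at hL0 hU0
    have h1 := hL0 (left_mem_Icc.2 zero_le_one) ht ht.1
    have h2 := hU0 (left_mem_Icc.2 zero_le_one) ht ht.1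
    unfold El at h1 h2
    simp only [add_zero, sub_self, zero_mul, Real.one_rpow, one_mul, div_one] at h1 h2
    exact le_antisymm h2 h1

end Pool.Agent.REV.H16
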