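import Pool.Agent.REV.StmtsV

set_option autoImplicit false

/-! Squad REV, row VEL: the limit equation. -/

namespace Pool.Agent.REV.H16

open Set MeasureTheory Filter
open scoped Topology

theorem vel (hVLM : VlmStmt) (hVPS : VpsStmt) (hVEO : VeoStmt) (hVTA : VtaStmt) : VelStmt := by
  intro n C σ R K F s y D hn hC hσ hR hLD hK hyK b hb hbD
  have hn4 : (4 : ℝ) ≤ n := by exact_mod_cast hn
  have hc3 : 0 < c3 n C := by
    unfold c3
    apply div_pos hC
    exact mul_pos (by linarith) (by linarith)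
  have hσc : 0 < σ * c3 n C := mul_pos hσ hc3
  set a : ℝ := 1 / b with hadef
  have ha : 0 < a := one_div_pos.2 hb
  -- `y ≤ R`
  have hyR : ∀ t, 0 < t → y t ≤ R := by
    intro t ht
    refine ge_of_tendsto hLD.top ?_
    filter_upwards [eventually_ge_atTop t] with u hu
    exact hLD.mono ht (lt_of_lt_of_le ht hu) hu
  have hRk : Tendsto (fun k => RA n (F k 0) 1) atTop (𝓝 R) := hLD.rlim 0 (by norm_num)
  have hsk : Tendsto (fun k => s k 0) atTop (𝓝 σ) := hLD.slim 0 (by norm_num)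
  set g : ℕ → ℝ → ℝ := fun k t => psd n b t * (RA n (F k 0) 1 ^ (n - 1) - ph n (F k 0) t) with hg
  set G : ℝ → ℝ := fun t => psd n b t * (R ^ (n - 1) - y t ^ (n - 1)) with hG
  have hV := fun k => hVEO n C (s k 0) (F k 0) (F k 1) hn hC (hLD.spos k 0) (hLD.prf k 0)
    (hLD.prf k 1) (hLD.st k 0 (by norm_num)) b hb
  have hgi : ∀ k, IntegrableOn (g k) (Ioi a) := fun k => (hV k).1
  have hI : ∀ k, yb n (F k 1) b = s k 0 * c3 n C * ∫ t in Ioi a, g k t := fun k => (hV k).2
  have hyb : ∀ k t, 0 ≤ t → 0 ≤ yb n (F k 0) t ∧ yb n (F k 0) t ≤ RA n (F k 0) 1 := fun k t ht =>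
    (hVLM n (F k 0) hn (hLD.prf k 0)).2.2.2.1 t ht
  have hRA0 : ∀ k, 0 ≤ RA n (F k 0) 1 := fun k => (hVLM n (F k 0) hn (hLD.prf k 0)).2.2.1
  have hph : ∀ k t, 0 ≤ t → 0 ≤ ph n (F k 0) t ∧ ph n (F k 0) t ≤ RA n (F k 0) 1 ^ (n - 1) := by
    intro k t ht
    obtain ⟨h1, h2⟩ := hyb k t ht
    exact ⟨pow_nonneg h1 _, pow_le_pow_left₀ h1 h2 _⟩
  have hpsd : ∀ t, a < t → 0 ≤ psd n b t ∧ psd n b t ≤ n := (hVPS n b hn hb).1
  have hg0 : ∀ k t, a < t → 0 ≤ g k t := by
    intro k t ht
    exact mul_nonneg (hpsd t ht).1 (sub_nonneg.2 (hph k t (ha.le.trans ht.le)).2)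
  have hG0 : ∀ t, a < t → 0 ≤ G t := by
    intro t ht
    have ht0 : 0 < t := ha.trans ht
    exact mul_nonneg (hpsd t ht).1
      (sub_nonneg.2 (pow_le_pow_left₀ (hLD.nonneg t ht0) (hyR t ht0) _))
  have hskc : ∀ k, 0 < s k 0 * c3 n C := fun k => mul_pos (hLD.spos k 0) hc3
  have hskt : Tendsto (fun k => s k 0 * c3 n C) atTop (𝓝 (σ * c3 n C)) := hsk.mul_const _
  set L : ℝ := y b / (σ * c3 n C) with hLdef
  have hL : Tendsto (fun k => ∫ t in Ioi a, g k t) atTop (𝓝 L) := by
    have h1 : Tendsto (fun k => yb n (F k 1) b / (s k 0 * c3 n C)) atTop (𝓝 L) :=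
      (hLD.ylim 1 (by norm_num) b hb hbD).div hskt hσc.ne'
    refine h1.congr fun k => ?_
    rw [hI k, mul_div_assoc, mul_comm, div_mul_cancel₀ _ (hskc k).ne']
  have hL0 : 0 ≤ L := div_nonneg (hLD.nonneg b hb) hσc.le
  have hae : ∀ᵐ t ∂(volume.restrict (Ioi a)), Tendsto (fun k => g k t) atTop (𝓝 (G t)) := by
    filter_upwards [ae_restrict_mem measurableSet_Ioi,
      ae_restrict_of_ae (hLD.cnt.ae_notMem volume)] with t ht htD
    have ht0 : 0 < t := ha.trans ht
    have h1 : Tendsto (fun k => ph n (F k 0) t) atTop (𝓝 (y t ^ (n - 1))) :=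
      (hLD.ylim 0 (by norm_num) t ht0 htD).pow (n - 1)
    exact ((hRk.pow (n - 1)).sub h1).const_mul (psd n b t)
  have hae0 : ∀ k, ∀ᵐ t ∂(volume.restrict (Ioi a)), 0 ≤ g k t := fun k => by
    filter_upwards [ae_restrict_mem measurableSet_Ioi] with t ht
    exact hg0 k t ht
  have haeG : ∀ᵐ t ∂(volume.restrict (Ioi a)), 0 ≤ G t := by
    filter_upwards [ae_restrict_mem measurableSet_Ioi] with t ht
    exact hG0 t ht
  have hGm : AEStronglyMeasurable G (volume.restrict (Ioi a)) :=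
    aestronglyMeasurable_of_tendsto_ae atTop (fun k => (hgi k).aestronglyMeasurable) hae
  -- Fatou
  have hF : ∫⁻ t in Ioi a, ENNReal.ofReal (G t) ≤ ENNReal.ofReal L := by
    have h1 : ∫⁻ t in Ioi a, ENNReal.ofReal (G t) =
        ∫⁻ t in Ioi a, liminf (fun k => ENNReal.ofReal (g k t)) atTop := by
      apply lintegral_congr_ae
      filter_upwards [hae] with t ht
      exact ((ENNReal.continuous_ofReal.tendsto _).comp ht).liminf_eq.symm
    have h2 : ∫⁻ t in Ioi a, liminf (fun k => ENNReal.ofReal (g k t)) atTop ≤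
        liminf (fun k => ∫⁻ t in Ioi a, ENNReal.ofReal (g k t)) atTop :=
      lintegral_liminf_le' fun k => ((hgi k).aestronglyMeasurable.aemeasurable).ennreal_ofReal
    have h3 : (fun k => ∫⁻ t in Ioi a, ENNReal.ofReal (g k t)) =
        fun k => ENNReal.ofReal (∫ t in Ioi a, g k t) := by
      funext k
      exact (ofReal_integral_eq_lintegral_ofReal (hgi k) (hae0 k)).symm
    rw [h1]
    refine h2.trans (le_of_eq ?_)
    rw [h3]
    exact ((ENNReal.continuous_ofReal.tendsto _).comp hL).liminf_eq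
  have hGi : IntegrableOn G (Ioi a) :=
    ⟨hGm, (hasFiniteIntegral_iff_ofReal haeG).2 (hF.trans_lt ENNReal.ofReal_lt_top)⟩
  have hle1 : ∫ t in Ioi a, G t ≤ L := by
    rw [integral_eq_lintegral_of_nonneg_ae haeG hGm]
    have := ENNReal.toReal_mono ENNReal.ofReal_ne_top hF
    rwa [ENNReal.toReal_ofReal hL0] at this
  -- tails
  set q : ℝ := (4 / 3 : ℝ) ^ (((n : ℝ) - 2) / 2) with hq
  have hq0 : 0 < q := by positivity
  have htail : ∀ B : ℝ, a < B → 2 / B ∉ D →
      L ≤ (∫ t in Ioi a, G t) + n * (q * y (2 / B) / (σ * c3 n C)) := by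
    intro B hB hBD
    have hB0 : 0 < B := ha.trans hB
    have hn0 : (0 : ℝ) ≤ n := by linarith
    have hT := fun k => hVTA n C (s k 0) (F k 0) (F k 1) hn hC (hLD.spos k 0) (hLD.prf k 0)
      (hLD.prf k 1) (hLD.st k 0 (by norm_num)) B hB0
    have hsub1 : Ioc a B ⊆ Ioi a := Ioc_subset_Ioi_self
    have hsub2 : Ioi B ⊆ Ioi a := Ioi_subset_Ioi hB.le
    have h1 : ∀ k, ∫ t in Ioi a, g k t ≤
        (∫ t in Ioc a B, g k t) + n * (q * yb n (F k 1) (2 / B) / (s k 0 * c3 n C)) := by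
      intro k
      have e1 : ∫ t in Ioi a, g k t = (∫ t in Ioc a B, g k t) + ∫ t in Ioi B, g k t := by
        rw [← Ioc_union_Ioi_eq_Ioi hB.le]
        exact setIntegral_union (Ioc_disjoint_Ioi le_rfl) measurableSet_Ioi
          ((hgi k).mono_set hsub1) ((hgi k).mono_set hsub2)
      have e2 : ∫ t in Ioi B, g k t ≤
          ∫ t in Ioi B, (n : ℝ) * (RA n (F k 0) 1 ^ (n - 1) - ph n (F k 0) t) := by
        apply setIntegral_mono_on ((hgi k).mono_set hsub2) ((hT k).2.2.1.const_mul _)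
          measurableSet_Ioi
        intro t ht
        have hta : a < t := hB.trans ht
        exact mul_le_mul_of_nonneg_right (hpsd t hta).2
          (sub_nonneg.2 (hph k t (ha.le.trans hta.le)).2)
      rw [integral_const_mul] at e2
      have e3 := (hT k).2.2.2
      have e4 : ∫ t in Ioi B, (RA n (F k 0) 1 ^ (n - 1) - ph n (F k 0) t) ≤
          q * yb n (F k 1) (2 / B) / (s k 0 * c3 n C) := by
        rw [le_div_iff₀ (hskc k), mul_comm]
        exact e3
      have e5 := mul_le_mul_of_nonneg_left e4 hn0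
      linarith
    have h2 : Tendsto (fun k => ∫ t in Ioc a B, g k t) atTop (𝓝 (∫ t in Ioc a B, G t)) := by
      apply tendsto_integral_filter_of_dominated_convergence
        (fun _ => (n : ℝ) * (R + 1) ^ (n - 1))
      · exact Eventually.of_forall fun k => ((hgi k).mono_set hsub1).aestronglyMeasurable
      · filter_upwards [hRk.eventually (gt_mem_nhds (show R < R + 1 by linarith))] with k hk
        filter_upwards [ae_restrict_mem measurableSet_Ioc] with t ht
        rw [Real.norm_eq_abs, abs_of_nonneg (hg0 k t ht.1)]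
        have hp := hph k t (ha.le.trans ht.1.le)
        have h3 : RA n (F k 0) 1 ^ (n - 1) ≤ (R + 1) ^ (n - 1) :=
          pow_le_pow_left₀ (hRA0 k) hk.le _
        exact mul_le_mul (hpsd t ht.1).2 (by linarith) (sub_nonneg.2 hp.2) hn0
      · exact integrableOn_const (by simp)
      · exact ae_restrict_of_ae_restrict_of_subset hsub1 hae
    have h3 : Tendsto (fun k => (∫ t in Ioc a B, g k t) +
        n * (q * yb n (F k 1) (2 / B) / (s k 0 * c3 n C))) atTop
        (𝓝 ((∫ t in Ioc a B, G t) + n * (q * y (2 / B) / (σ * c3 n C)))) := by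
      refine h2.add (Tendsto.const_mul _ (Tendsto.div (Tendsto.const_mul _ ?_) hskt hσc.ne'))
      exact hLD.ylim 1 (by norm_num) (2 / B) (by positivity) hBD
    have h4 := le_of_tendsto_of_tendsto' hL h3 h1
    have h5 : ∫ t in Ioc a B, G t ≤ ∫ t in Ioi a, G t :=
      setIntegral_mono_set hGi haeG (HasSubset.Subset.eventuallyLE hsub1)
    linarith
  have hle2 : L ≤ ∫ t in Ioi a, G t := by
    apply le_of_forall_pos_le_add
    intro ε hε
    set B0 : ℝ := max a (n * (q * (K * 2) / (σ * c3 n C)) / ε) with hB0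
    have hcnt : (((fun x : ℝ => 2 / x) '' D)).Countable := hLD.cnt.image _
    obtain ⟨B, hBD, hB1, -⟩ := (hcnt.dense_compl ℝ).exists_between (show B0 < B0 + 1 by linarith)
    have hBa : a < B := (le_max_left _ _).trans_lt hB1
    have hBp : 0 < B := ha.trans hBa
    have hBD' : 2 / B ∉ D := by
      intro h
      apply hBD
      refine ⟨2 / B, h, ?_⟩
      show 2 / (2 / B) = B
      field_simp
    have h1 := htail B hBa hBD'
    have h2 : y (2 / B) ≤ K * (2 / B) := hyK _ (by positivity)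
    have h3 : n * (q * (K * 2) / (σ * c3 n C)) / ε < B := (le_max_right _ _).trans_lt hB1
    rw [div_lt_iff₀ hε] at h3
    have hn0 : (0 : ℝ) ≤ n := by linarith
    have h4 : n * (q * y (2 / B) / (σ * c3 n C)) ≤ n * (q * (K * 2) / (σ * c3 n C)) / B := by
      have e1 : q * y (2 / B) ≤ q * (K * (2 / B)) := mul_le_mul_of_nonneg_left h2 hq0.le
      have e2 : q * y (2 / B) / (σ * c3 n C) ≤ q * (K * (2 / B)) / (σ * c3 n C) :=
        div_le_div_of_nonneg_right e1 hσc.le
      have e3 := mul_le_mul_of_nonneg_left e2 hn0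
      refine e3.trans (le_of_eq ?_)
      field_simp
    have h5 : n * (q * (K * 2) / (σ * c3 n C)) / B ≤ ε := by
      rw [div_le_iff₀ hBp]
      linarith
    linarith
  refine ⟨hGi, ?_⟩
  have : L = ∫ t in Ioi a, G t := le_antisymm hle2 hle1
  rw [← this, hLdef, mul_div_assoc', mul_comm, mul_div_assoc, div_self hσc.ne', mul_one]

end Pool.Agent.REV.H16
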